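import Pool.Agent.HamTrans.Final

/-!
# Hamiltonian-transitive Cayley graphs of finite abelian groups

The open case of the classification: the group has even order at least four, and the connection
set stays generating after removing any `s` together with `-s`. In this case the Cayley graph is
Hamiltonian-transitive if and only if it belongs to the family of cycles, complete graphs,
balanced complete bipartite graphs, the cube, and odd prisms.

The proof compares the numbers of chords of length three of Hamiltonian cycles.
-/

namespace Pool.Agent.Results.MP_eae19f_co.RedundantEven

open Pool.Agent.HamTrans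

/-- Let `Γ` be a finite abelian group of even order at least four, and let `S = -S`, `0 ∉ S`, be a
generating set such that `S \ {s, -s}` generates `Γ` for every `s ∈ S`. Then the Cayley graph of
`Γ` and `S` is Hamiltonian-transitive if and only if it is a member of the family `F`. -/
theorem result {Γ : Type*} [AddCommGroup Γ] [Finite Γ] [DecidableEq Γ] (S : Set Γ)
    (hneg : ∀ s ∈ S, -s ∈ S) (h0 : (0 : Γ) ∉ S) (hgen : AddSubgroup.closure S = ⊤)
    (heven : Even (Nat.card Γ)) (hcard : 4 ≤ Nat.card Γ)
    (hred : ∀ s ∈ S, AddSubgroup.closure (S \ {s, -s}) = ⊤) :
    HamTransitive (SimpleGraph.addCayley S) ↔ InFamily (SimpleGraph.addCayley S) :=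
  main_graph heven hcard hneg h0 hgen hred

end Pool.Agent.Results.MP_eae19f_co.RedundantEven
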